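import Mathlib

namespace Pool.Agent.Results.MP_95a65f_co.Exact

open Finset SimpleGraph

/-- the total domination number -/
noncomputable def gammaT {V : Type} (G : SimpleGraph V) : ℕ :=
  sInf {k | ∃ S : Finset V, S.card = k ∧ ∀ v, ∃ s ∈ S, G.Adj v s}

lemma two_mul_pairs {r : ℕ} (f : Fin r → Fin r → ℕ) (hs : ∀ i j, f i j = f j i)
    (h0 : ∀ i, f i i = 0) : 2 * ∑ i, ∑ j ∈ Ioi i, f i j = ∑ i, ∑ j, f i j := by
  have h := Finset.sum_sum_Ioi_add_eq_sum_sum_off_diag (fun j i => f i j)
  simp only [mul_sum]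
  rw [show (∑ i, ∑ j ∈ Ioi i, 2 * f i j) = ∑ i, ∑ j ∈ Ioi i, (f i j + f j i) from
    sum_congr rfl fun i _ => sum_congr rfl fun j _ => by rw [hs j i]; ring, h]
  refine sum_congr rfl fun i _ => ?_
  rw [← sum_compl_add_sum {i}, sum_singleton, h0, add_zero]

lemma cut {r : ℕ} (Q : Fin r → Prop) [DecidablePred Q] :
    ∑ i, ∑ j ∈ Ioi i, (if (Q i ↔ Q j) then 0 else 1) =
      (univ.filter Q).card * (r - (univ.filter Q).card) := by
  have h := two_mul_pairs (fun i j : Fin r => if (Q i ↔ Q j) then 0 else 1)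
    (fun i j => by simp only [iff_comm]) (fun i => by simp)
  have hc : (univ.filter fun i => ¬ Q i).card = r - (univ.filter Q).card := by
    have := card_filter_add_card_filter_not (s := univ) Q
    simp only [card_univ, Fintype.card_fin] at this
    omega
  have e : ∀ i, ∑ j, (if (Q i ↔ Q j) then 0 else 1) =
      if Q i then r - (univ.filter Q).card else (univ.filter Q).card := by
    intro i
    split_ifs with hi
    · rw [← hc, card_filter]
      exact sum_congr rfl fun j _ => by simp [hi]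
    · rw [card_filter]
      exact sum_congr rfl fun j _ => by simp [hi]
  simp only [e] at h
  rw [sum_ite, sum_const, sum_const, hc, smul_eq_mul, smul_eq_mul] at h
  nlinarith

lemma ones (r : ℕ) : 2 * ∑ i : Fin r, ∑ _j ∈ Ioi i, 1 = r * (r - 1) := by
  have h := Finset.sum_sum_Ioi_add_eq_sum_sum_off_diag (fun _ _ : Fin r => 1)
  simp only [mul_sum]
  refine h.trans ?_
  simp [card_compl]

variable {V : Type} [DecidableEq V] (G : SimpleGraph V)

inductive Grow : Finset V → Prop
  | single (v : V) : Grow {v}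
  | ins (U : Finset V) (u w : V) : Grow U → u ∈ U → G.Adj u w → Grow (insert w U)

lemma grow_sum (hG : G.Connected) (r : ℕ) (U : Finset V) (h : Grow G U) :
    ∀ p : Fin r → V, (∀ i, p i ∈ U) →
      ∑ i, ∑ j ∈ Ioi i, G.dist (p i) (p j) + r * r / 4 ≤ U.card * (r * r / 4) := by
  induction h with
  | single v =>
    intro p hp
    simp only [mem_singleton] at hp
    simp [hp]
  | ins U u w _ hu huw ih =>
    intro p hp
    by_cases hw : w ∈ U
    · rw [insert_eq_of_mem hw] at hp ⊢
      exact ih p hp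
    have a1 := ih (fun i => if p i = w then u else p i) (fun i => by
      split_ifs with h
      · exact hu
      · exact (mem_insert.1 (hp i)).resolve_left h)
    have d1 : G.dist u w = 1 := dist_eq_one_iff_adj.2 huw
    have d2 : G.dist w u = 1 := dist_eq_one_iff_adj.2 huw.symm
    have a2 : ∑ i, ∑ j ∈ Ioi i, G.dist (p i) (p j) ≤
        ∑ i, ∑ j ∈ Ioi i, (G.dist (if p i = w then u else p i) (if p j = w then u else p j) +
          (if (p i = w ↔ p j = w) then 0 else 1)) := by
      refine sum_le_sum fun i _ => sum_le_sum fun j _ => ?_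
      by_cases hi : p i = w <;> by_cases hj : p j = w
      · simp [hi, hj]
      · have := hG.dist_triangle (u := w) (v := u) (w := p j)
        simp only [hi, hj, if_true, if_false, iff_false, not_true]
        omega
      · have := hG.dist_triangle (u := p i) (v := u) (w := w)
        simp only [hi, hj, if_true, if_false, iff_true]
        omega
      · simp [hi, hj]
    simp only [sum_add_distrib] at a2
    rw [cut (fun i => p i = w)] at a2
    set a := (univ.filter fun i => p i = w).card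
    have ha : a ≤ r := by simpa using card_filter_le univ (fun i => p i = w)
    have a3 : a * (r - a) ≤ r * r / 4 := by
      rw [Nat.le_div_iff_mul_le (by norm_num)]
      obtain ⟨b, hb⟩ := Nat.exists_eq_add_of_le ha
      rw [show r - a = b by omega]
      have : r * r = (a + b) * (a + b) := by rw [← hb]
      nlinarith [sq_nonneg ((a : ℤ) - b)]
    rw [card_insert_of_notMem hw, add_mul, one_mul]
    omega

lemma grow_cover (hG : G.Connected) (S : Finset V) (hS : ∀ v, ∃ s ∈ S, G.Adj v s) (k : ℕ) :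
    ∀ U : Finset V, (S \ U).card = k → Grow G U → U.card + 2 ≤ 2 * (S ∩ U).card →
      ∃ W, Grow G W ∧ S ⊆ W ∧ W.card + 2 ≤ 2 * S.card := by
  induction k using Nat.strong_induction_on with
  | _ k ih =>
  intro U hk hU hc
  by_cases h0 : S ⊆ U
  · exact ⟨U, hU, h0, by rwa [inter_eq_left.2 h0] at hc⟩
  have one : ∀ s ∈ S, s ∉ U → ∀ u ∈ U, G.Adj u s →
      ∃ W, Grow G W ∧ S ⊆ W ∧ W.card + 2 ≤ 2 * S.card := by
    intro s hs hsU u hu hus
    refine ih _ ?_ (insert s U) rfl (Grow.ins U u s hU hu hus) ?_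
    · rw [← hk]
      exact card_lt_card ⟨sdiff_subset_sdiff Subset.rfl (subset_insert _ _),
        fun h => by simpa [hs] using h (mem_sdiff.2 ⟨hs, hsU⟩)⟩
    · rw [card_insert_of_notMem hsU, inter_insert_of_mem hs,
        card_insert_of_notMem (by simp [hsU])]
      omega
  obtain ⟨s, hs, hsU⟩ := not_subset.1 h0
  by_cases h1 : ∃ u ∈ U, G.Adj u s
  · obtain ⟨u, hu, hus⟩ := h1
    exact one s hs hsU u hu hus
  obtain ⟨u0, hu0⟩ : U.Nonempty := by cases hU <;> simp
  obtain ⟨w⟩ := hG u0 s
  obtain ⟨d, -, ha, hb⟩ := w.exists_boundary_dart {v | v ∈ U ∨ ∃ u ∈ U, G.Adj u v}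
    (Or.inl hu0) (fun h => h.elim hsU h1)
  simp only [Set.mem_ofPred_eq, not_or, not_exists, not_and] at ha hb
  have hab := d.adj
  obtain ⟨u, hu, hua⟩ := ha.resolve_left fun h => hb.2 _ h hab
  obtain ⟨s1, hs1, hbs⟩ := hS d.snd
  have hs1U : s1 ∉ U := fun h => hb.2 _ h hbs.symm
  obtain ⟨s2, hs2, h12⟩ := hS s1
  by_cases hs2U : s2 ∈ U
  · exact one s1 hs1 hs1U s2 hs2U h12.symm
  refine ih _ ?_ (insert s2 (insert s1 (insert d.snd (insert d.fst U)))) rfl
    (Grow.ins _ s1 _ (Grow.ins _ d.snd _ (Grow.ins _ d.fst _ (Grow.ins _ u _ hU hu hua)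
      (by simp) hab) (by simp) hbs) (by simp) h12) ?_
  · rw [← hk]
    exact card_lt_card ⟨sdiff_subset_sdiff Subset.rfl (fun x hx => by simp [hx]),
      fun h => by simpa [hs1] using h (mem_sdiff.2 ⟨hs1, hs1U⟩)⟩
  · have c1 := card_insert_le s2 (insert s1 (insert d.snd (insert d.fst U)))
    have c2 := card_insert_le s1 (insert d.snd (insert d.fst U))
    have c3 := card_insert_le d.snd (insert d.fst U)
    have c4 := card_insert_le d.fst U
    have c5 : (insert s2 (insert s1 (S ∩ U))).card ≤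
        (S ∩ insert s2 (insert s1 (insert d.snd (insert d.fst U)))).card :=
      card_le_card fun x hx => by
        simp only [mem_insert, mem_inter] at hx ⊢
        rcases hx with rfl | rfl | h <;> tauto
    rw [card_insert_of_notMem (by simp [hs2U, h12.ne']), card_insert_of_notMem (by simp [hs1U])]
      at c5
    omega

lemma bound (hG : G.Connected) (r : ℕ) (hr : 3 ≤ r) (S : Finset V)
    (hS : ∀ v, ∃ s ∈ S, G.Adj v s) (x : Fin r → V) :
    2 * ∑ i, ∑ j ∈ Ioi i, G.dist (x i) (x j) ≤ S.card * (r * r / 4 + r * (r - 1)) := by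
  obtain ⟨s, hs, -⟩ := hS (x ⟨0, by omega⟩)
  obtain ⟨t, ht, hst⟩ := hS s
  have c2 : (insert t {s} : Finset V).card = 2 := card_pair hst.ne'
  have sub : (insert t {s} : Finset V) ⊆ S := by simp [insert_subset_iff, hs, ht]
  obtain ⟨W, hW, hSW, hc⟩ := grow_cover G hG S hS _ (insert t {s}) rfl
    (Grow.ins _ s t (Grow.single s) (by simp) hst) (by rw [inter_eq_right.2 sub, c2])
  have g2 : 2 ≤ S.card := c2 ▸ card_le_card sub
  choose p hp hp' using hS
  have a1 := grow_sum G hG r W hW (fun i => p (x i)) (fun i => hSW (hp _))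
  have a2 : ∑ i, ∑ j ∈ Ioi i, G.dist (x i) (x j) ≤
      ∑ i, ∑ j ∈ Ioi i, (G.dist (p (x i)) (p (x j)) + 2 * 1) := by
    refine sum_le_sum fun i _ => sum_le_sum fun j _ => ?_
    have t1 := hG.dist_triangle (u := x i) (v := p (x i)) (w := x j)
    have t2 := hG.dist_triangle (u := p (x i)) (v := p (x j)) (w := x j)
    have d1 := dist_eq_one_iff_adj.2 (hp' (x i))
    have d2 := dist_eq_one_iff_adj.2 (hp' (x j)).symm
    omega
  simp only [sum_add_distrib, ← mul_sum] at a2
  rw [ones] at a2
  have a3 : 3 * (r * r / 4) ≤ r * (r - 1) := by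
    obtain ⟨m, rfl⟩ := Nat.exists_eq_add_of_le hr
    rw [show 3 + m - 1 = 2 + m by omega]
    rcases Nat.eq_zero_or_pos m with rfl | hm
    · norm_num
    · have := Nat.div_mul_le_self ((3 + m) * (3 + m)) 4
      nlinarith
  obtain ⟨g, hg⟩ := Nat.exists_eq_add_of_le g2
  rw [hg] at hc ⊢
  have a4 : W.card * (r * r / 4) ≤ (2 + 2 * g) * (r * r / 4) := Nat.mul_le_mul_right _ (by omega)
  nlinarith [Nat.mul_le_mul_left g a3]

def star (r : ℕ) : SimpleGraph (Fin r ⊕ Bool) where
  Adj a b := match a, b with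
    | .inl _, .inl _ => False
    | .inl i, .inr b => b = decide ((i : ℕ) < r / 2)
    | .inr b, .inl i => b = decide ((i : ℕ) < r / 2)
    | .inr a, .inr b => a ≠ b
  symm := ⟨by rintro (a | a) (b | b) h <;> first | exact h | exact h.symm⟩
  loopless := ⟨by rintro (a | a) h <;> simp at h⟩

lemma star_conn (r : ℕ) : (star r).Connected := by
  have h1 : ∀ b, (star r).Reachable (.inr b) (.inr true) := by
    rintro (_ | _)
    · exact Adj.reachable (show false ≠ true by simp)
    · rfl
  have h2 : ∀ v, (star r).Reachable v (.inr true) := by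
    rintro (i | b)
    · exact (Adj.reachable (show (star r).Adj (.inl i) (.inr _) from rfl)).trans (h1 _)
    · exact h1 b
  exact ⟨fun a b => (h2 a).trans (h2 b).symm⟩

theorem result (r : ℕ) (hr : 3 ≤ r) :
    IsGreatest {c : ℝ | ∀ (V : Type) [Fintype V] [Nontrivial V] (G : SimpleGraph V), G.Connected →
        ∀ x : Fin r → V, c * ∑ i, ∑ j ∈ Finset.Ioi i, (G.dist (x i) (x j) : ℝ) ≤ gammaT G}
      (if Even r then 8 / (5 * (r : ℝ) ^ 2 - 4 * r) else 8 / (5 * (r : ℝ) ^ 2 - 4 * r - 1)) := by
  have hD : 0 < r * r / 4 + r * (r - 1) := Nat.add_pos_right _ (Nat.mul_pos (by omega) (by omega))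
  have hD' : (0 : ℝ) < (r * r / 4 + r * (r - 1) : ℕ) := by exact_mod_cast hD
  have e : (if Even r then 8 / (5 * (r : ℝ) ^ 2 - 4 * r) else 8 / (5 * (r : ℝ) ^ 2 - 4 * r - 1)) =
      2 / ((r * r / 4 + r * (r - 1) : ℕ) : ℝ) := by
    have h8 : ∀ t : ℝ, 8 / (4 * t) = 2 / t := fun t => by
      rw [show (8 : ℝ) = 4 * 2 by norm_num, mul_div_mul_left _ _ (by norm_num)]
    rw [← h8]
    split_ifs with h
    · obtain ⟨m, rfl⟩ := h
      rw [show (m + m) * (m + m) / 4 = m * m by
        rw [show (m + m) * (m + m) = m * m * 4 by ring]; simp]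
      push_cast [Nat.cast_sub (show 1 ≤ m + m by omega)]
      congr 1; ring
    · obtain ⟨m, rfl⟩ := Nat.not_even_iff_odd.1 h
      rw [show (2 * m + 1) * (2 * m + 1) / 4 = m * m + m by
        rw [show (2 * m + 1) * (2 * m + 1) = 1 + (m * m + m) * 4 by ring,
          Nat.add_mul_div_right _ _ (by norm_num)]; simp]
      simp only [Nat.add_sub_cancel]
      push_cast
      congr 1; ring
  rw [e]
  constructor
  · intro V _ _ G hG x
    classical
    obtain ⟨S, hS, hS'⟩ := Nat.sInf_mem (s := {k | ∃ S : Finset V, S.card = k ∧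
      ∀ v, ∃ s ∈ S, G.Adj v s}) ⟨_, univ, rfl, fun v => by
        simpa using hG.preconnected.exists_adj_of_nontrivial v⟩
    have := bound G hG r hr S hS' x
    rw [gammaT, ← hS, div_mul_eq_mul_div, div_le_iff₀ hD']
    exact_mod_cast this
  · intro c hc
    have : Nontrivial (Fin r ⊕ Bool) := ⟨⟨.inr true, .inr false, by simp⟩⟩
    have h1 := hc (Fin r ⊕ Bool) (star r) (star_conn r) Sum.inl
    have h2 : gammaT (star r) ≤ 2 := Nat.sInf_le ⟨{.inr true, .inr false}, by simp, by
      rintro (i | b)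
      · refine ⟨.inr (decide ((i : ℕ) < r / 2)), ?_, rfl⟩
        cases decide ((i : ℕ) < r / 2) <;> simp
      · refine ⟨.inr (!b), by cases b <;> simp, ?_⟩
        show b ≠ !b
        simp⟩
    have h3 : ∑ i : Fin r, ∑ j ∈ Ioi i,
        ((if ((i : ℕ) < r / 2 ↔ (j : ℕ) < r / 2) then 0 else 1) + 2 * 1) ≤
        ∑ i : Fin r, ∑ j ∈ Ioi i, (star r).dist (.inl i) (.inl j) := by
      refine sum_le_sum fun i _ => sum_le_sum fun j hj => ?_
      have hne : (Sum.inl i : Fin r ⊕ Bool) ≠ .inl j := by simpa using (mem_Ioi.1 hj).ne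
      split_ifs with h
      · exact (star_conn r).one_lt_dist_of_ne_of_not_adj hne id
      · have h4 : 2 < (star r).edist (.inl i) (.inl j) := by
          rw [two_lt_edist_iff]
          refine ⟨hne, id, Set.eq_empty_of_forall_notMem ?_⟩
          rintro (k | b) ⟨h5, h6⟩
          · exact h5
          · exact h (by simpa using (show b = _ from h5).symm.trans h6)
        rw [← ((star_conn r) _ _).coe_dist_eq_edist] at h4
        exact_mod_cast h4
    simp only [sum_add_distrib, ← mul_sum] at h3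
    rw [ones, cut (fun i : Fin r => (i : ℕ) < r / 2), Fin.card_filter_val_lt,
      min_eq_right (Nat.div_le_self _ _)] at h3
    have h4 : r / 2 * (r - r / 2) = r * r / 4 := by
      rcases Nat.even_or_odd' r with ⟨m, rfl | rfl⟩
      · rw [show 2 * m * (2 * m) = m * m * 4 by ring, show 2 * m / 2 = m by omega,
          show 2 * m - m = m by omega]; simp
      · rw [show (2 * m + 1) * (2 * m + 1) = 1 + (m * (m + 1)) * 4 by ring,
          Nat.add_mul_div_right _ _ (by norm_num), show (2 * m + 1) / 2 = m by omega,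
          show 2 * m + 1 - m = m + 1 by omega]; simp
    rw [h4] at h3
    have h5 : ((r * r / 4 + r * (r - 1) : ℕ) : ℝ) ≤
        ∑ i : Fin r, ∑ j ∈ Ioi i, ((star r).dist (.inl i) (.inl j) : ℝ) := by exact_mod_cast h3
    have h6 : (gammaT (star r) : ℝ) ≤ 2 := by exact_mod_cast h2
    rw [le_div_iff₀ hD']
    rcases le_total c 0 with h | h <;> nlinarith

end Pool.Agent.Results.MP_95a65f_co.Exact
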